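import Mathlib
import Pool.Agent.J4H93.HN.Main

set_option autoImplicit false

namespace Pool.Agent.Results.MP_54bae5_nt.HahnPartition

/-- Hahn's question, answered in the affirmative: if finitely many sets `C 0, ..., C (k - 1)`
cover the positive integers (in particular if they are the classes of a finite partition), then a
single one of them represents every positive rational as a finite sum of distinct unit fractions. -/
theorem result (k : ℕ) (C : Fin k → Set ℕ) (hC : ∀ n : ℕ, 0 < n → ∃ i, n ∈ C i) :
    ∃ i, ∀ q : ℚ, 0 < q → ∃ F : Finset ℕ, F.Nonempty ∧ (∀ a ∈ F, 0 < a ∧ a ∈ C i) ∧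
      ∑ a ∈ F, (1 : ℚ) / a = q :=
  Pool.Agent.J4H93.HN.main k C hC

end Pool.Agent.Results.MP_54bae5_nt.HahnPartition
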